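import Pool.Agent.Helper9.SK.St

/-!
# Project SK, module DIC: dichotomy from the Dirichlet approximation
-/

set_option autoImplicit false

noncomputable section

namespace Pool.Agent.Helper7.SK

open Pool.Agent.Helper9.SK
open Finset ArithmeticFunction MeasureTheory
open Pool.Agent.Helper48.BK (ex th Pz Vz lz gs Sx Apx)

private theorem pw {S q : ℝ} (hq : 1 ≤ q) (h0 : 0 ≤ S) (h : S ≤ 3 * (1 / q)) :
    S ^ (1 / 8 : ℝ) ≤ 3 * (1 / q) ^ (1 / 8 : ℝ) := by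
  have hq0 : 0 ≤ 1 / q := by positivity
  calc S ^ (1 / 8 : ℝ) ≤ (3 * (1 / q)) ^ (1 / 8 : ℝ) := Real.rpow_le_rpow h0 h (by norm_num)
    _ = 3 ^ (1 / 8 : ℝ) * (1 / q) ^ (1 / 8 : ℝ) := Real.mul_rpow (by norm_num) hq0
    _ ≤ 3 * (1 / q) ^ (1 / 8 : ℝ) := by
        refine mul_le_mul_of_nonneg_right ?_ (Real.rpow_nonneg hq0 _)
        calc (3 : ℝ) ^ (1 / 8 : ℝ) ≤ 3 ^ (1 : ℝ) := Real.rpow_le_rpow_of_exponent_le (by norm_num) (by norm_num)
          _ = 3 := Real.rpow_one 3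

theorem hDIC (hTyp : StTyp) : StDic := by
  obtain ⟨C, hC, h⟩ := hTyp
  refine ⟨3 * C, by positivity, ?_⟩
  intro U M Q α G η a c hU hUM hQ hQM ha hc hη
  have hU1 : 1 ≤ U := by omega
  have hM1 : 1 ≤ M := by omega
  have hUMle : M ≤ (U * M) ^ 2 := by nlinarith [Nat.mul_le_mul hU1 hM1, Nat.mul_le_mul hM1 hM1]
  have hQ0 : 0 < (U * M) ^ 2 / Q := Nat.div_pos (hQM.trans hUMle) hQ
  have hP : (0 : ℝ) < ((U : ℝ) * M) ^ 2 := by
    have h1 : (0 : ℝ) < U := by exact_mod_cast hU1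
    have h2 : (0 : ℝ) < M := by exact_mod_cast hM1
    positivity
  have hQr : (1 : ℝ) ≤ Q := by exact_mod_cast hQ
  have hQp : (0 : ℝ) < Q := by linarith
  obtain ⟨r, hr, hd⟩ := Real.exists_rat_abs_sub_le_and_den_le α hQ0
  set N := (U * M) ^ 2 / Q with hN
  have hden : (0 : ℝ) < r.den := by exact_mod_cast r.pos
  have hden1 : 1 ≤ r.den := r.pos
  have hNr : (0 : ℝ) < (N : ℝ) + 1 := by positivity
  have hcast : (r : ℝ) = (r.num : ℝ) / (r.den : ℝ) := by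
    exact_mod_cast (Rat.num_div_den r).symm
  rw [hcast] at hr
  by_cases hc1 : r.den ≤ Q
  · right
    refine ⟨r.den, Finset.mem_Icc.2 ⟨hden1, hc1⟩, r.num, hr.trans (le_trans ?_ hη)⟩
    have h1 : (U * M) ^ 2 < Q * (N + 1) := Nat.lt_mul_div_succ _ hQ
    have h2 : ((U : ℝ) * M) ^ 2 < Q * ((N : ℝ) + 1) := by exact_mod_cast h1
    have h3 : (1 : ℝ) ≤ r.den := by exact_mod_cast hden1
    rw [div_le_div_iff₀ (by positivity) hP]
    nlinarith [mul_le_mul_of_nonneg_left h3 (mul_nonneg hQp.le hNr.le)]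
  · left
    push Not at hc1
    have hqU : r.den ≤ (U * M) ^ 2 := hd.trans (Nat.div_le_self _ _)
    have hdr : (r.den : ℝ) ≤ N := by exact_mod_cast hd
    have hap : Apx α r.num r.den := by
      refine ⟨hden1, ?_, hr.trans ?_⟩
      · rw [Int.isCoprime_iff_gcd_eq_one]
        exact r.reduced
      · rw [sq]
        refine one_div_le_one_div_of_le (by positivity) ?_
        nlinarith
    refine (h U M r.den r.num α G a c hU hUM hqU hap ha hc).trans ?_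
    have hQd : (Q : ℝ) ≤ r.den := by exact_mod_cast hc1.le
    have hQM' : (Q : ℝ) ≤ M := by exact_mod_cast hQM
    have hMp : (0 : ℝ) < M := by linarith
    have hUp : (0 : ℝ) < U := by exact_mod_cast hU1
    have e1 : 1 / (r.den : ℝ) ≤ 1 / Q := one_div_le_one_div_of_le hQp hQd
    have e2 : 1 / (M : ℝ) ≤ 1 / Q := one_div_le_one_div_of_le hQp hQM'
    have e3 : (r.den : ℝ) / ((U : ℝ) * M) ^ 2 ≤ 1 / Q := by
      rw [div_le_div_iff₀ hP hQp, one_mul]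
      have h4 : N * Q ≤ (U * M) ^ 2 := Nat.div_mul_le_self _ _
      have h5 : (N : ℝ) * Q ≤ ((U : ℝ) * M) ^ 2 := by exact_mod_cast h4
      exact (mul_le_mul_of_nonneg_right hdr hQp.le).trans h5
    have e4 := pw hQr (S := 1 / (r.den : ℝ) + 1 / M + r.den / ((U : ℝ) * M) ^ 2) (by positivity) (by linarith)
    have e5 : (0 : ℝ) ≤ 1 / U := by positivity
    have e6 : (0 : ℝ) ≤ C * G ^ 4 * ((U : ℝ) * M) ^ 2 * Real.log M ^ 2 := by
      have : (0 : ℝ) ≤ G ^ 4 := by positivity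
      positivity
    calc C * G ^ 4 * ((U : ℝ) * M) ^ 2 * Real.log M ^ 2 *
        (1 / (U : ℝ) + (1 / (r.den : ℝ) + 1 / M + r.den / ((U : ℝ) * M) ^ 2) ^ (1 / 8 : ℝ)) ≤
        C * G ^ 4 * ((U : ℝ) * M) ^ 2 * Real.log M ^ 2 * (3 * (1 / (U : ℝ) + (1 / (Q : ℝ)) ^ (1 / 8 : ℝ))) :=
          mul_le_mul_of_nonneg_left (by linarith) e6
      _ = _ := by ring

end Pool.Agent.Helper7.SK
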